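import Mathlib

set_option autoImplicit false

open Finset

namespace H897C

variable {V : Type} [Fintype V] [DecidableEq V]

/-- proper `q`-colourings `f` of `G`, injective on `K`, with `f v = f (s v)` for `v ∈ A` -/
def Ok (G : SimpleGraph V) (K A : Finset V) (s : V → V) {q : ℕ} (f : V → Fin q) : Prop :=
  (∀ v w, G.Adj v w → f v ≠ f w) ∧ Set.InjOn f (K : Set V) ∧ ∀ v ∈ A, f v = f (s v)

open Classical in
/-- the finset of these colourings -/
noncomputable def Vd (G : SimpleGraph V) (K A : Finset V) (s : V → V) (q : ℕ) :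
    Finset (V → Fin q) := univ.filter (fun f => Ok G K A s f)

lemma mem_Vd {G : SimpleGraph V} {K A : Finset V} {s : V → V} {q : ℕ} {f : V → Fin q} :
    f ∈ Vd G K A s q ↔ Ok G K A s f := by
  simp [Vd]

lemma ok_comp {G : SimpleGraph V} {K A : Finset V} {s : V → V} {q r : ℕ} {f : V → Fin q}
    (h : Ok G K A s f) (e : Fin q → Fin r) (he : Function.Injective e) :
    Ok G K A s (fun v => e (f v)) := by
  refine ⟨fun v w hvw h1 => h.1 v w hvw (he h1), fun v hv w hw h1 => h.2.1 hv hw (he h1),
    fun v hv => congrArg e (h.2.2 v hv)⟩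

/-- the trivial bound: every colouring uses at least `|K|` colours -/
lemma base (G : SimpleGraph V) (K A : Finset V) (s : V → V) (q : ℕ) :
    (q + 1) * (Vd G K A s q).card ≤ (q + 1 - K.card) * (Vd G K A s (q + 1)).card := by
  classical
  have h1 : ((Vd G K A s q) ×ˢ (univ : Finset (Fin (q + 1)))).card ≤
      ((Vd G K A s (q + 1)).sigma fun f => univ.filter fun c => c ∉ K.image f).card := by
    refine Finset.card_le_card_of_injOn
      (fun p => (⟨fun v => p.2.succAbove (p.1 v), p.2⟩ : (_ : V → Fin (q + 1)) × Fin (q + 1)))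
      ?_ ?_
    · rintro ⟨f, c⟩ hp
      simp only [Finset.coe_product, Set.mem_prod, Finset.mem_coe, mem_Vd] at hp
      simp only [Finset.coe_sigma, Set.mem_sigma_iff, Finset.mem_coe, mem_Vd, Finset.mem_filter,
        Finset.mem_univ, true_and, Finset.mem_image, not_exists, not_and]
      exact ⟨ok_comp hp.1 _ (Fin.succAbove_right_injective), fun v _ => Fin.succAbove_ne c (f v)⟩
    · rintro ⟨f, c⟩ _ ⟨f', c'⟩ _ h
      simp only [Sigma.mk.injEq] at h
      obtain ⟨h1, h2⟩ := h
      have h3 : c = c' := by simpa using h2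
      subst h3
      have h4 : f = f' := by
        funext v
        exact Fin.succAbove_right_injective (congrFun h1 v)
      rw [h4]
  rw [Finset.card_product, Finset.card_univ, Fintype.card_fin, Finset.card_sigma] at h1
  have h2 : ∀ f ∈ Vd G K A s (q + 1),
      (univ.filter fun c => c ∉ K.image f).card = q + 1 - K.card := by
    intro f hf
    have h3 : (univ.filter fun c => c ∉ K.image f) = (K.image f)ᶜ := by
      ext c; simp
    rw [h3, Finset.card_compl, Fintype.card_fin, Finset.card_image_of_injOn (mem_Vd.1 hf).2.1]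
  rw [Finset.sum_congr rfl h2, Finset.sum_const, smul_eq_mul] at h1
  calc (q + 1) * (Vd G K A s q).card = (Vd G K A s q).card * (q + 1) := by ring
    _ ≤ _ := h1
    _ = _ := by ring

/-- recolouring of the vertices of `A` of colour `c` with the colour `d` -/
def rec' (A : Finset V) {q : ℕ} (c d : Fin q) (f : V → Fin q) : V → Fin q :=
  fun v => if v ∈ A ∧ f v = c then d else f v

lemma rec_ok {G : SimpleGraph V} {K A : Finset V} {s : V → V} (hKA : K ⊆ A)
    (hs : ∀ v ∈ A, s v ∈ K) {q : ℕ} {f : V → Fin q} (hf : Ok G K A s f) {c d : Fin q}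
    (hd : ∀ v, v ∉ A → f v ≠ d) (hdK : ∀ v ∈ K, f v ≠ d) :
    Ok G K A s (rec' A c d f) := by
  have hdA : ∀ v, f v ≠ d := by
    intro v
    by_cases hv : v ∈ A
    · rw [hf.2.2 v hv]; exact hdK _ (hs v hv)
    · exact hd v hv
  have key : ∀ v w, f v ≠ f w → rec' A c d f v ≠ rec' A c d f w := by
    intro v w hvw h
    unfold rec' at h
    split_ifs at h with h1 h2 h2
    · exact hvw (h1.2.trans h2.2.symm)
    · exact hdA w h.symm
    · exact hdA v h
    · exact hvw h
  refine ⟨fun v w hvw => key v w (hf.1 v w hvw), ?_, ?_⟩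
  · intro v hv w hw h
    by_contra hne
    exact key v w (fun h1 => hne (hf.2.1 hv hw h1)) h
  · intro v hv
    unfold rec'
    have h1 : s v ∈ A := hKA (hs v hv)
    rw [hf.2.2 v hv]
    simp [hv, h1]

end H897C
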