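import Pool.Agent.H897C.Chrom

set_option autoImplicit false

open Finset

namespace H897C

variable {V : Type} [Fintype V] [DecidableEq V]

open Classical in
/-- the colourings with given restriction `g` to the complement of `A` -/
noncomputable def Fb (G : SimpleGraph V) (K A : Finset V) (s : V → V) {q : ℕ}
    (g : {v // v ∉ A} → Fin q) : Finset (V → Fin q) :=
  (Vd G K A s q).filter (fun f => (fun v : {v // v ∉ A} => f v) = g)

open Classical in
/-- number of those for which `c` is a colour of `K` -/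
noncomputable def nn (G : SimpleGraph V) (K A : Finset V) (s : V → V) {q : ℕ}
    (g : {v // v ∉ A} → Fin q) (c : Fin q) : ℕ :=
  ((Fb G K A s g).filter (fun f => c ∈ K.image f)).card

lemma mem_Fb {G : SimpleGraph V} {K A : Finset V} {s : V → V} {q : ℕ}
    {g : {v // v ∉ A} → Fin q} {f : V → Fin q} :
    f ∈ Fb G K A s g ↔ Ok G K A s f ∧ ∀ v : {v // v ∉ A}, f v = g v := by
  simp [Fb, mem_Vd, funext_iff]

lemma nn_le {G : SimpleGraph V} {K A : Finset V} {s : V → V} (hKA : K ⊆ A)
    (hs : ∀ v ∈ A, s v ∈ K) {q : ℕ} (g : {v // v ∉ A} → Fin q) (c d : Fin q)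
    (hd : ∀ v, g v ≠ d) : nn G K A s g c ≤ nn G K A s g d := by
  classical
  by_cases hcd : c = d
  · rw [hcd]
  unfold nn
  have hcA : ∀ f : V → Fin q, d ∉ K.image f → c ∉ K.image (rec' A c d f) := by
    intro f hf h
    obtain ⟨v, hv, h1⟩ := Finset.mem_image.1 h
    unfold rec' at h1
    split_ifs at h1 with h2
    · exact hcd h1.symm
    · exact h2 ⟨hKA hv, h1⟩
  refine Finset.card_le_card_of_injOn (fun f => if d ∈ K.image f then f else rec' A c d f) ?_ ?_
  · intro f hf
    simp only [Finset.coe_filter, Set.mem_setOf_eq] at hf ⊢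
    obtain ⟨hf1, hf2⟩ := hf
    by_cases h : d ∈ K.image f
    · rw [if_pos h]; exact ⟨hf1, h⟩
    · rw [if_neg h]
      have h0 := mem_Fb.1 hf1
      refine ⟨mem_Fb.2 ⟨rec_ok hKA hs h0.1 (fun v hv => by rw [h0.2 ⟨v, hv⟩]; exact hd _)
        (fun v hv h1 => h (Finset.mem_image.2 ⟨v, hv, h1⟩)), fun v => ?_⟩, ?_⟩
      · unfold rec'
        rw [if_neg (fun h1 => v.2 h1.1)]
        exact h0.2 v
      · obtain ⟨v, hv, h1⟩ := Finset.mem_image.1 hf2
        refine Finset.mem_image.2 ⟨v, hv, ?_⟩
        unfold rec'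
        rw [if_pos ⟨hKA hv, h1⟩]
  · intro f hf f' hf' h
    simp only [Finset.coe_filter, Set.mem_setOf_eq] at hf hf'
    by_cases h1 : d ∈ K.image f <;> by_cases h2 : d ∈ K.image f'
    · simpa [h1, h2] using h
    · simp only [if_pos h1, if_neg h2] at h
      exact absurd (h ▸ hf.2) (hcA f' h2)
    · simp only [if_neg h1, if_pos h2] at h
      exact absurd (h ▸ hf'.2) (hcA f h1)
    · simp only [if_neg h1, if_neg h2] at h
      have hA : ∀ e : V → Fin q, Ok G K A s e → d ∉ K.image e → ∀ v ∈ A, e v ≠ d := by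
        intro e he hd' v hv h3
        rw [he.2.2 v hv] at h3
        exact hd' (Finset.mem_image.2 ⟨s v, hs v hv, h3⟩)
      funext v
      have h3 := congrFun h v
      by_cases hv : v ∈ A
      · have a1 := hA f (mem_Fb.1 hf.1).1 h1 v hv
        have a2 := hA f' (mem_Fb.1 hf'.1).1 h2 v hv
        unfold rec' at h3
        by_cases b1 : f v = c <;> by_cases b2 : f' v = c
        · rw [b1, b2]
        · rw [if_pos ⟨hv, b1⟩, if_neg (fun x => b2 x.2)] at h3
          exact absurd h3.symm a2
        · rw [if_neg (fun x => b1 x.2), if_pos ⟨hv, b2⟩] at h3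
          exact absurd h3 a1
        · rwa [if_neg (fun x => b1 x.2), if_neg (fun x => b2 x.2)] at h3
      · rw [(mem_Fb.1 hf.1).2 ⟨v, hv⟩, (mem_Fb.1 hf'.1).2 ⟨v, hv⟩]

lemma sum_nn (G : SimpleGraph V) (K A : Finset V) (s : V → V) {q : ℕ}
    (g : {v // v ∉ A} → Fin q) :
    ∑ c, nn G K A s g c = K.card * (Fb G K A s g).card := by
  classical
  unfold nn
  simp_rw [Finset.card_filter]
  rw [Finset.sum_comm]
  rw [Finset.sum_congr rfl (g := fun _ => K.card)]
  · rw [Finset.sum_const, smul_eq_mul, mul_comm]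
  · intro f hf
    rw [← Finset.card_filter, Finset.filter_univ_mem,
      Finset.card_image_of_injOn (mem_Fb.1 hf).1.2.1]

lemma fib_le {G : SimpleGraph V} {K A : Finset V} {s : V → V} (hKA : K ⊆ A)
    (hs : ∀ v ∈ A, s v ∈ K) {q : ℕ} (hq : Fintype.card {v // v ∉ A} ≤ q)
    (g : {v // v ∉ A} → Fin q) :
    q * ∑ w, nn G K A s g (g w) ≤
      Fintype.card {v // v ∉ A} * (K.card * (Fb G K A s g).card) := by
  classical
  rw [← sum_nn]
  set n := nn G K A s g with hn
  set m := Fintype.card {v // v ∉ A} with hm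
  set t := (univ : Finset {v // v ∉ A}).sup (fun w => n (g w)) with ht
  -- `a c` = number of free vertices of colour `c`
  let a : Fin q → ℕ := fun c => (univ.filter fun w : {v // v ∉ A} => g w = c).card
  have ha : ∑ c, a c = m := by
    have h := Finset.card_eq_sum_card_fiberwise (f := g) (s := (univ : Finset {v // v ∉ A}))
      (t := (univ : Finset (Fin q))) (fun x _ => Finset.mem_coe.2 (Finset.mem_univ _))
    rw [← Finset.card_univ (α := {v // v ∉ A})] at *
    rw [hm, h]
  have hsum : ∑ w, n (g w) = ∑ c, a c * n c := by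
    rw [← Finset.sum_fiberwise (s := (univ : Finset {v // v ∉ A})) (g := g)]
    refine Finset.sum_congr rfl fun c _ => ?_
    rw [Finset.sum_congr rfl (g := fun _ => n c)]
    · rw [Finset.sum_const, smul_eq_mul]
    · intro w hw
      rw [(Finset.mem_filter.1 hw).2]
  have hterm : ∀ c, ((q : ℤ) * a c - m) * n c ≤ ((q : ℤ) * a c - m) * t := by
    intro c
    by_cases hc : ∃ w, g w = c
    · obtain ⟨w, hw⟩ := hc
      have h1 : 1 ≤ a c := Finset.card_pos.2 ⟨w, by simp [hw]⟩
      have h2 : n c ≤ t := by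
        rw [← hw, ht]
        exact Finset.le_sup (f := fun w => n (g w)) (Finset.mem_univ w)
      have h3 : (0 : ℤ) ≤ (q : ℤ) * a c - m := by
        have : (m : ℤ) ≤ q := by exact_mod_cast hq
        have h1' : (1 : ℤ) ≤ a c := by exact_mod_cast h1
        nlinarith
      exact mul_le_mul_of_nonneg_left (by exact_mod_cast h2) h3
    · push Not at hc
      have h1 : a c = 0 := by
        simp only [a, Finset.card_eq_zero, Finset.filter_eq_empty_iff]
        exact fun w _ => hc w
      have h2 : t ≤ n c := by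
        rw [ht]
        exact Finset.sup_le fun w _ => nn_le hKA hs g (g w) c hc
      rw [h1]
      have h2' : (t : ℤ) ≤ n c := by exact_mod_cast h2
      have hm0 : (0 : ℤ) ≤ m := by positivity
      push_cast
      nlinarith
  have htot : ∑ c : Fin q, ((q : ℤ) * a c - m) * n c ≤ 0 := by
    calc ∑ c : Fin q, ((q : ℤ) * a c - m) * n c ≤ ∑ c : Fin q, ((q : ℤ) * a c - m) * t :=
          Finset.sum_le_sum fun c _ => hterm c
      _ = 0 := by
        rw [← Finset.sum_mul, Finset.sum_sub_distrib, ← Finset.mul_sum]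
        have : (∑ c, (a c : ℤ)) = m := by exact_mod_cast ha
        rw [this, Finset.sum_const, Finset.card_univ, Fintype.card_fin]
        simp
  have h5 : ∑ c : Fin q, ((q : ℤ) * a c - m) * n c =
      (q : ℤ) * (∑ c, (a c : ℤ) * n c) - m * ∑ c, (n c : ℤ) := by
    rw [Finset.mul_sum, Finset.mul_sum, ← Finset.sum_sub_distrib]
    exact Finset.sum_congr rfl fun c _ => by ring
  rw [hsum]
  have h6 : (q : ℤ) * (∑ c, (a c : ℤ) * n c) ≤ m * ∑ c, (n c : ℤ) := by linarith
  exact_mod_cast h6

end H897C
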