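import Pool.Agent.H897C.Chrom2

set_option autoImplicit false

open Finset

namespace H897C

variable {V : Type} [Fintype V] [DecidableEq V]

open Classical in
/-- number of colourings for which the colour of `w` is a colour of `K` -/
noncomputable def bad (G : SimpleGraph V) (K A : Finset V) (s : V → V) (q : ℕ) (w : V) : ℕ :=
  ((Vd G K A s q).filter (fun f => f w ∈ K.image f)).card

lemma avg {G : SimpleGraph V} {K A : Finset V} {s : V → V} (hKA : K ⊆ A)
    (hs : ∀ v ∈ A, s v ∈ K) {q : ℕ} (hq : Fintype.card {v // v ∉ A} ≤ q) :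
    q * ∑ w : {v // v ∉ A}, bad G K A s q w ≤
      Fintype.card {v // v ∉ A} * (K.card * (Vd G K A s q).card) := by
  classical
  have h1 : (Vd G K A s q).card = ∑ g : {v // v ∉ A} → Fin q, (Fb G K A s g).card := by
    rw [Finset.card_eq_sum_card_fiberwise (f := fun (f : V → Fin q) (v : {v // v ∉ A}) => f v)
      (t := univ) (fun x _ => Finset.mem_coe.2 (Finset.mem_univ _))]
    refine Finset.sum_congr rfl fun g _ => ?_
    unfold Fb
    congr
  have h2 : ∀ w : {v // v ∉ A}, bad G K A s q w = ∑ g : {v // v ∉ A} → Fin q,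
      nn G K A s g (g w) := by
    intro w
    unfold bad nn
    rw [Finset.card_eq_sum_card_fiberwise (f := fun (f : V → Fin q) (v : {v // v ∉ A}) => f v)
      (t := univ) (fun x _ => Finset.mem_coe.2 (Finset.mem_univ _))]
    refine Finset.sum_congr rfl fun g _ => ?_
    congr 1
    ext f
    simp only [Finset.mem_filter, Fb]
    constructor
    · rintro ⟨⟨a, b⟩, c⟩
      refine ⟨⟨a, c⟩, ?_⟩
      rw [← c]; exact b
    · rintro ⟨⟨a, c⟩, b⟩
      refine ⟨⟨a, ?_⟩, c⟩
      rw [← c] at b; exact b
  simp_rw [h2]
  rw [Finset.sum_comm, h1, Finset.mul_sum, Finset.mul_sum, Finset.mul_sum]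
  refine Finset.sum_le_sum fun g _ => ?_
  exact fib_le hKA hs hq g

lemma split (G : SimpleGraph V) (K A : Finset V) (s : V → V) (hKA : K ⊆ A) (q : ℕ) (w : V)
    (hw : w ∉ A) :
    ((Vd G K A s q).card = (Vd G (insert w K) (insert w A) (Function.update s w w) q).card +
      bad G K A s q w) ∧
    bad G K A s q w = ∑ y ∈ K, (Vd G K (insert w A) (Function.update s w y) q).card := by
  classical
  have hwK : w ∉ K := fun h => hw (hKA h)
  have hup : ∀ (f : V → Fin q) (y : V), (∀ v ∈ insert w A, f v = f (Function.update s w y v)) ↔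
      (f w = f y ∧ ∀ v ∈ A, f v = f (s v)) := by
    intro f y
    constructor
    · intro h
      refine ⟨?_, fun v hv => ?_⟩
      · have := h w (Finset.mem_insert_self _ _)
        rwa [Function.update_self] at this
      · have := h v (Finset.mem_insert_of_mem hv)
        rwa [Function.update_of_ne (fun e : v = w => hw (by rw [← e]; exact hv))] at this
    · rintro ⟨h1, h2⟩ v hv
      by_cases e : v = w
      · rw [e, Function.update_self]; exact h1
      · rw [Function.update_of_ne e]
        exact h2 v ((Finset.mem_insert.1 hv).resolve_left e)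
  constructor
  · have h1 : Vd G (insert w K) (insert w A) (Function.update s w w) q =
        (Vd G K A s q).filter (fun f => ¬ f w ∈ K.image f) := by
      ext f
      rw [Finset.mem_filter, mem_Vd, mem_Vd]
      unfold Ok
      rw [hup, Finset.coe_insert, Set.injOn_insert (by simpa using hwK)]
      simp only [Finset.mem_image, Set.mem_image, Finset.mem_coe]
      tauto
    rw [h1]
    unfold bad
    rw [add_comm, Finset.card_filter_add_card_filter_not]
  · have h2 : ∀ y ∈ K, (Vd G K (insert w A) (Function.update s w y) q) =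
        (Vd G K A s q).filter (fun f => f w = f y) := by
      intro y _
      ext f
      rw [Finset.mem_filter, mem_Vd, mem_Vd]
      unfold Ok
      rw [hup]
      tauto
    rw [Finset.sum_congr rfl (fun y hy => by rw [h2 y hy])]
    unfold bad
    simp_rw [Finset.card_filter]
    rw [Finset.sum_comm]
    refine Finset.sum_congr rfl fun f hf => ?_
    have hinj := (mem_Vd.1 hf).2.1
    split_ifs with h
    · obtain ⟨y, hy, h3⟩ := Finset.mem_image.1 h
      rw [Finset.sum_eq_single_of_mem y hy]
      · rw [if_pos h3.symm]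
      · intro z hz hzy
        rw [if_neg]
        intro h4
        exact hzy (hinj hz hy (h4.symm.trans h3.symm))
    · rw [Finset.sum_eq_zero]
      intro z hz
      rw [if_neg]
      intro h4
      exact h (Finset.mem_image.2 ⟨z, hz, h4.symm⟩)

theorem main_ind (G : SimpleGraph V) : ∀ (m : ℕ) (K A : Finset V) (s : V → V), K ⊆ A →
    (∀ v ∈ A, s v ∈ K) → Fintype.card {v // v ∉ A} = m → ∀ q : ℕ, K.card + m ≤ q + 1 →
    ((Vd G K A s q).card : ℝ) ≤ (1 - (K.card : ℝ) / ((q : ℝ) + 1)) *
      (1 - 1 / ((q : ℝ) + 1)) ^ m * (Vd G K A s (q + 1)).card := by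
  classical
  intro m
  induction m with
  | zero =>
    intro K A s hKA hs _ q hq
    have h := base G K A s q
    have hk : K.card ≤ q + 1 := by omega
    have h' : ((q : ℝ) + 1) * (Vd G K A s q).card ≤
        ((q : ℝ) + 1 - K.card) * (Vd G K A s (q + 1)).card := by
      have h1 : (((q + 1) * (Vd G K A s q).card : ℕ) : ℝ) ≤
        (((q + 1 - K.card) * (Vd G K A s (q + 1)).card : ℕ) : ℝ) := by exact_mod_cast h
      rw [Nat.cast_mul, Nat.cast_mul, Nat.cast_sub hk] at h1
      push_cast at h1
      exact h1
    have hq0 : (0 : ℝ) < (q : ℝ) + 1 := by positivity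
    rw [pow_zero, mul_one]
    have h2 : (1 - (K.card : ℝ) / ((q : ℝ) + 1)) * (Vd G K A s (q + 1)).card =
        (((q : ℝ) + 1 - K.card) * (Vd G K A s (q + 1)).card) / ((q : ℝ) + 1) := by
      field_simp
    rw [h2, le_div_iff₀ hq0]
    linarith
  | succ m ih =>
    intro K A s hKA hs hm q hq
    have havg := avg (G := G) hKA hs (q := q + 1) (by omega)
    have hne : (univ : Finset {v // v ∉ A}).Nonempty := by
      rw [← Finset.card_pos, Finset.card_univ, hm]; omega
    obtain ⟨w, _, hw⟩ := Finset.exists_le_of_sum_le (s := (univ : Finset {v // v ∉ A}))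
      (f := fun w : {v // v ∉ A} => (q + 1) * bad G K A s (q + 1) w.1)
      (g := fun _ : {v // v ∉ A} => K.card * (Vd G K A s (q + 1)).card) hne (by
        rw [← Finset.mul_sum, Finset.sum_const, Finset.card_univ, smul_eq_mul]
        exact havg)
    have hwA := w.2
    have hwK : w.1 ∉ K := fun h => hwA (hKA h)
    -- the smaller states
    have hcard : Fintype.card {v // v ∉ insert w.1 A} = m := by
      have e1 : Fintype.card {v // v ∉ A} = (Aᶜ).card := by
        rw [Fintype.card_subtype]; congr 1; ext; simp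
      have e2 : Fintype.card {v // v ∉ insert w.1 A} = ((insert w.1 A)ᶜ).card := by
        rw [Fintype.card_subtype]; congr 1; ext; simp
      rw [e2, Finset.card_compl, Finset.card_insert_of_notMem hwA]
      rw [e1, Finset.card_compl] at hm
      omega
    have hs1 : ∀ (z : V) (K' : Finset V), K ⊆ K' → z ∈ K' →
        ∀ v ∈ insert w.1 A, Function.update s w.1 z v ∈ K' := by
      intro z K' hK' hz v hv
      by_cases e : v = w.1
      · rw [e, Function.update_self]; exact hz
      · rw [Function.update_of_ne e]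
        exact hK' (hs v ((Finset.mem_insert.1 hv).resolve_left e))
    have hnew := ih (insert w.1 K) (insert w.1 A) (Function.update s w.1 w.1)
      (Finset.insert_subset_insert _ hKA)
      (hs1 _ _ (Finset.subset_insert _ _) (Finset.mem_insert_self _ _)) hcard q
      (by rw [Finset.card_insert_of_notMem hwK]; omega)
    have hold : ∀ y ∈ K, _ := fun y hy => ih K (insert w.1 A) (Function.update s w.1 y)
      (hKA.trans (Finset.subset_insert _ _)) (hs1 y K (Finset.Subset.refl _) hy) hcard q (by omega)
    obtain ⟨s1, s2⟩ := split G K A s hKA q w.1 hwA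
    obtain ⟨t1, t2⟩ := split G K A s hKA (q + 1) w.1 hwA
    set N := ((Vd G K A s (q + 1)).card : ℝ) with hN
    set P := ((Vd G (insert w.1 K) (insert w.1 A) (Function.update s w.1 w.1) (q + 1)).card : ℝ)
      with hP
    set b := (bad G K A s (q + 1) w.1 : ℝ) with hb
    set x := (q : ℝ) + 1 with hx
    set k := (K.card : ℝ) with hk
    have hx0 : 0 < x := by rw [hx]; positivity
    have hx1 : 1 ≤ x := by rw [hx]; linarith [(Nat.cast_nonneg q : (0 : ℝ) ≤ (q : ℝ))]
    have hk0 : 0 ≤ k := by rw [hk]; positivity
    have hNb : N = P + b := by rw [hN, hP, hb, t1]; push_cast; ring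
    have hbk : x * b ≤ k * N := by
      have h1 : (((q + 1) * bad G K A s (q + 1) w.1 : ℕ) : ℝ) ≤
        ((K.card * (Vd G K A s (q + 1)).card : ℕ) : ℝ) := by exact_mod_cast hw
      push_cast at h1
      rw [hx, hb, hk, hN]; exact h1
    have hpow : 0 ≤ (1 - 1 / x) ^ m := by
      apply pow_nonneg
      rw [sub_nonneg, div_le_one hx0]
      exact hx1
    have hold' : (bad G K A s q w.1 : ℝ) ≤ (1 - k / x) * (1 - 1 / x) ^ m * b := by
      rw [hb, s2, t2]
      push_cast
      rw [Finset.mul_sum]
      exact Finset.sum_le_sum fun y hy => hold y hy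
    rw [Finset.card_insert_of_notMem hwK] at hnew
    push_cast at hnew
    rw [s1]
    push_cast
    have hfin : (1 - (k + 1) / x) * (1 - 1 / x) ^ m * P + (1 - k / x) * (1 - 1 / x) ^ m * b ≤
        (1 - k / x) * (1 - 1 / x) ^ (m + 1) * N := by
      have e1 : (1 - k / x) * (1 - 1 / x) ^ (m + 1) * N -
          ((1 - (k + 1) / x) * (1 - 1 / x) ^ m * P + (1 - k / x) * (1 - 1 / x) ^ m * b) =
          (1 - 1 / x) ^ m * ((k * N - x * b) / x ^ 2) := by
        rw [hNb, pow_succ]
        generalize (1 - 1 / x) ^ m = y
        field_simp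
        ring
      have e2 : 0 ≤ (1 - 1 / x) ^ m * ((k * N - x * b) / x ^ 2) :=
        mul_nonneg hpow (div_nonneg (by linarith) (by positivity))
      linarith
    calc _ ≤ (1 - (k + 1) / x) * (1 - 1 / x) ^ m * P + (1 - k / x) * (1 - 1 / x) ^ m * b :=
          add_le_add hnew hold'
      _ ≤ _ := hfin

end H897C
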