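import Pool.Agent.H897C.Chrom3

set_option autoImplicit false

open Finset

namespace H897C

variable {V : Type} [Fintype V]

/-- proper colourings as functions -/
def colEquiv (G : SimpleGraph V) (q : ℕ) :
    G.Coloring (Fin q) ≃ {f : V → Fin q // ∀ v w, G.Adj v w → f v ≠ f w} where
  toFun c := ⟨fun v => c v, fun _ _ h => c.valid h⟩
  invFun f := SimpleGraph.Coloring.mk f.1 (fun {v w} h => f.2 v w h)
  left_inv c := by ext v; rfl
  right_inv f := by ext v; rfl

lemma card_col [DecidableEq V] (G : SimpleGraph V) (K : Finset V)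
    (hK : ∀ v ∈ K, ∀ w ∈ K, v ≠ w → G.Adj v w) (q : ℕ) :
    Nat.card (G.Coloring (Fin q)) = (Vd G K K id q).card := by
  classical
  rw [Nat.card_congr (colEquiv G q), Nat.card_eq_fintype_card, Fintype.card_subtype]
  congr 1
  ext f
  rw [mem_Vd]
  simp only [Finset.mem_filter, Finset.mem_univ, true_and, Ok, id]
  constructor
  · intro h
    refine ⟨h, ?_, fun _ _ => trivial⟩
    intro v hv w hw e
    by_contra hne
    exact h v w (hK v hv w hw hne) e
  · exact fun h => h.1

/-- the inequality for every clique `K` and every number `q + 1 ≥ |V|` of colours -/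
theorem clique_ineq (G : SimpleGraph V) (K : Finset V) (k : ℕ) (hK : G.IsNClique k K) (q : ℕ)
    (hq : Fintype.card V ≤ q + 1) :
    (Nat.card (G.Coloring (Fin q)) : ℝ) ≤
      (1 - (k : ℝ) / ((q : ℝ) + 1)) * (1 - 1 / ((q : ℝ) + 1)) ^ (Fintype.card V - k) *
        Nat.card (G.Coloring (Fin (q + 1))) := by
  classical
  have hadj : ∀ v ∈ K, ∀ w ∈ K, v ≠ w → G.Adj v w := fun v hv w hw hne =>
    hK.1 (Finset.mem_coe.2 hv) (Finset.mem_coe.2 hw) hne
  have hcard : K.card = k := hK.2
  have hle : K.card ≤ Fintype.card V := Finset.card_le_univ K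
  have hm : Fintype.card {v // v ∉ K} = Fintype.card V - k := by
    rw [← hcard, ← Finset.card_compl, Fintype.card_subtype]
    congr 1; ext; simp
  rw [card_col G K hadj, card_col G K hadj]
  have h := main_ind G (Fintype.card V - k) K K id (Finset.Subset.refl _) (fun v hv => hv) hm q
    (by omega)
  rw [hcard] at h
  exact h

end H897C
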